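import Pool.Agent.Q107.OddCycle

/-!
# `|corona(G)| + |ker(G)| ≤ 2 α(G) + k`

For every finite graph `G`, `|corona(G)| + |ker(G)| ≤ 2 α(G) + k`, where `k` is the number of odd
cycles of `G`. The proof gives the stronger bound `|corona(G)| + |core(G)| ≤ 2 α(G) + |T|` for
every set `T` of vertices such that `G - T` is bipartite.
-/

set_option autoImplicit false

namespace Pool.Agent.Results.MP_7e5e3f_co.CoronaKer

open SimpleGraph

variable {V : Type}

/-- `S` is a maximum independent set of `G`. -/
def IsMaxIndep (G : SimpleGraph V) (S : Finset V) : Prop := G.IsNIndepSet G.indepNum S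

/-- The union of the maximum independent sets. -/
def corona (G : SimpleGraph V) : Set V := {v | ∃ S, IsMaxIndep G S ∧ v ∈ S}

/-- The intersection of the maximum independent sets. -/
def core (G : SimpleGraph V) : Set V := {v | ∀ S, IsMaxIndep G S → v ∈ S}

/-- `N(X)`: the vertices adjacent to at least one vertex of `X`. -/
def nbhd (G : SimpleGraph V) (X : Finset V) : Set V := {v | ∃ x ∈ X, G.Adj x v}

/-- `d_G(X) = |X| - |N(X)|`. -/
noncomputable def diff (G : SimpleGraph V) (X : Finset V) : ℤ := X.card - (nbhd G X).ncard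

/-- `X` is a critical independent set: it is independent and maximises `d_G` among the
independent sets. -/
def IsCritical (G : SimpleGraph V) (X : Finset V) : Prop :=
  G.IsIndepSet X ∧ ∀ Y : Finset V, G.IsIndepSet Y → diff G Y ≤ diff G X

/-- The intersection of the critical independent sets. -/
def ker (G : SimpleGraph V) : Set V := {v | ∀ X, IsCritical G X → v ∈ X}

/-- The odd cycles of `G`, identified with their edge sets. -/
def oddCycles (G : SimpleGraph V) : Set (Set (Sym2 V)) :=
  {E | ∃ (v : V) (c : G.Walk v v), c.IsCycle ∧ Odd c.length ∧ E = {e | e ∈ c.edges}}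

variable [Fintype V]

lemma card_le {G : SimpleGraph V} {S : Finset V} (h : G.IsIndepSet S) : S.card ≤ G.indepNum :=
  h.card_le_indepNum

lemma key (G : SimpleGraph V) (A : Finset V) (hA : G.IsIndepSet A) (T : Finset V)
    (hT : (G.induce {v | v ∉ T}).Colorable 2) :
    Fintype.card V + A.card ≤ 2 * G.indepNum + (nbhd G A).ncard + T.card := by
  classical
  obtain ⟨c⟩ := hT
  let N : Finset V := Finset.univ.filter (fun v => ∃ x ∈ A, G.Adj x v)
  have hN : (nbhd G A).ncard = N.card := by
    rw [← Set.ncard_coe_finset]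
    congr 1
    ext v
    simp [nbhd, N]
  let W : Finset V := (Finset.univ \ (A ∪ N)) \ T
  have hW : ∀ v ∈ W, v ∉ A ∧ v ∉ N ∧ v ∉ T := by
    intro v hv
    simp only [W, Finset.mem_sdiff, Finset.mem_union, Finset.mem_univ, true_and] at hv
    tauto
  have hWc : Fintype.card V ≤ W.card + A.card + N.card + T.card := by
    have h1 : (Finset.univ : Finset V) ⊆ W ∪ (A ∪ N ∪ T) := by
      intro v _
      simp only [W, Finset.mem_union, Finset.mem_sdiff, Finset.mem_univ, true_and]
      tauto
    have h2 := Finset.card_le_card h1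
    have h3 := Finset.card_union_le W (A ∪ N ∪ T)
    have h4 := Finset.card_union_le (A ∪ N) T
    have h5 := Finset.card_union_le A N
    rw [Finset.card_univ] at h2
    omega
  let I : Fin 2 → Finset V := fun j => W.filter (fun v => ∃ h : v ∉ T, c ⟨v, h⟩ = j)
  have hI : W.card ≤ (I 0).card + (I 1).card := by
    have h1 : W ⊆ I 0 ∪ I 1 := by
      intro v hv
      have h2 := (hW v hv).2.2
      simp only [I, Finset.mem_union, Finset.mem_filter]
      have h3 : ∀ j : Fin 2, j = 0 ∨ j = 1 := by decide
      rcases h3 (c ⟨v, h2⟩) with h | h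
      · left; exact ⟨hv, h2, h⟩
      · right; exact ⟨hv, h2, h⟩
    exact (Finset.card_le_card h1).trans (Finset.card_union_le _ _)
  have hind : ∀ j, A.card + (I j).card ≤ G.indepNum := by
    intro j
    have hd : Disjoint A (I j) := by
      rw [Finset.disjoint_left]
      intro v hv hv'
      exact (hW v (Finset.mem_filter.1 hv').1).1 hv
    rw [← Finset.card_union_of_disjoint hd]
    apply card_le
    intro a ha b hb hab hadj
    rw [Finset.mem_coe, Finset.mem_union] at ha hb
    rcases ha with ha | ha <;> rcases hb with hb | hb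
    · exact hA ha hb hab hadj
    · exact (hW b (Finset.mem_filter.1 hb).1).2.1 (by
        simp only [N, Finset.mem_filter, Finset.mem_univ, true_and]
        exact ⟨a, ha, hadj⟩)
    · exact (hW a (Finset.mem_filter.1 ha).1).2.1 (by
        simp only [N, Finset.mem_filter, Finset.mem_univ, true_and]
        exact ⟨b, hb, hadj.symm⟩)
    · obtain ⟨_, h1, h2⟩ := Finset.mem_filter.1 ha
      obtain ⟨_, h3, h4⟩ := Finset.mem_filter.1 hb
      have h5 : (G.induce {v | v ∉ T}).Adj ⟨a, h1⟩ ⟨b, h3⟩ := hadj
      exact c.valid h5 (h2.trans h4.symm)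
  have h0 := hind 0
  have h1 := hind 1
  rw [hN]
  omega

omit [Fintype V] in
lemma exists_max (G : SimpleGraph V) : ∃ S, IsMaxIndep G S := G.exists_isNIndepSet_indepNum

lemma corona_add_core_le (G : SimpleGraph V) (T : Finset V)
    (hT : (G.induce {v | v ∉ T}).Colorable 2) :
    (corona G).ncard + (core G).ncard ≤ 2 * G.indepNum + T.card := by
  classical
  obtain ⟨S, hS⟩ := exists_max G
  let A : Finset V := Finset.univ.filter (fun v => v ∈ core G)
  have hAc : (core G).ncard = A.card := by
    rw [← Set.ncard_coe_finset]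
    congr 1
    ext v
    simp [A]
  have hAS : A ⊆ S := by
    intro v hv
    exact (Finset.mem_filter.1 hv).2 S hS
  have hA : G.IsIndepSet A := by
    intro a ha b hb hab
    exact hS.isIndepSet (hAS ha) (hAS hb) hab
  have h1 := key G A hA T hT
  have h2 : (corona G).ncard + (nbhd G A).ncard ≤ Fintype.card V := by
    have hd : Disjoint (corona G) (nbhd G A) := by
      rw [Set.disjoint_left]
      rintro v ⟨S', hS', hv⟩ ⟨x, hx, hxv⟩
      have hx' := (Finset.mem_filter.1 hx).2 S' hS'
      exact hS'.isIndepSet hx' hv hxv.ne hxv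
    rw [← Set.ncard_union_eq hd (Set.toFinite _) (Set.toFinite _), ← Nat.card_eq_fintype_card,
      ← Set.ncard_univ]
    exact Set.ncard_le_ncard (Set.subset_univ _) (Set.toFinite _)
  omega

/-- there is a set of at most `k` vertices that meets all odd cycles -/
lemma exists_transversal (G : SimpleGraph V) :
    ∃ T : Finset V, T.card ≤ (oddCycles G).ncard ∧ (G.induce {v | v ∉ T}).Colorable 2 := by
  classical
  have hne : ∀ E ∈ oddCycles G, ∃ v : V, ∃ e ∈ E, v ∈ e := by
    rintro E ⟨v, c, hc, _, rfl⟩
    have h3 := hc.three_le_length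
    have : c.edges ≠ [] := by
      intro h
      have h4 := c.length_edges
      rw [h] at h4
      simp at h4
      omega
    obtain ⟨e, he⟩ := List.exists_mem_of_ne_nil _ this
    induction e using Sym2.ind with
    | _ x y => exact ⟨x, s(x, y), he, Sym2.mem_mk_left x y⟩
  choose f hf using hne
  have hfin : (oddCycles G).Finite := Set.toFinite _
  have : Fintype (oddCycles G) := hfin.fintype
  let T : Finset V := Finset.univ.image (fun E : oddCycles G => f E.1 E.2)
  refine ⟨T, ?_, ?_⟩
  · refine Finset.card_image_le.trans ?_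
    rw [Finset.card_univ, ← Nat.card_eq_fintype_card]
    exact le_refl _
  · by_contra hcol
    obtain ⟨v, p, hp, hodd⟩ := Q107.exists_odd_cycle hcol
    let φ : G.induce {v | v ∉ T} ↪g G := Embedding.induce _
    let q := p.map φ.toHom
    have hq : q.IsCycle := hp.map φ.injective
    have hql : Odd q.length := by
      rw [Walk.length_map]
      exact hodd
    have hE : {e | e ∈ q.edges} ∈ oddCycles G := ⟨_, q, hq, hql, rfl⟩
    obtain ⟨e, he, hve⟩ := hf _ hE
    have h1 : f _ hE ∈ q.support := by
      induction e using Sym2.ind with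
      | _ x y =>
        rcases Sym2.mem_iff.1 hve with h | h
        · rw [h]; exact Walk.fst_mem_support_of_mem_edges q he
        · rw [h]; exact Walk.snd_mem_support_of_mem_edges q he
    rw [Walk.support_map, List.mem_map] at h1
    obtain ⟨x, _, hx⟩ := h1
    have h2 : (φ x : V) ∉ T := x.2
    apply h2
    have h3 : (φ x : V) = f _ hE := hx
    rw [h3]
    exact Finset.mem_image_of_mem (fun E : oddCycles G => f E.1 E.2)
      (Finset.mem_univ (⟨_, hE⟩ : oddCycles G))

/-- critical independent sets exist -/
lemma exists_critical (G : SimpleGraph V) : ∃ X, IsCritical G X := by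
  classical
  have hne : (Finset.univ.filter (fun X : Finset V => G.IsIndepSet X)).Nonempty :=
    ⟨∅, by simp⟩
  obtain ⟨X, hX, hmax⟩ := Finset.exists_max_image _ (diff G) hne
  exact ⟨X, (Finset.mem_filter.1 hX).2, fun Y hY => hmax Y (by simp [hY])⟩

/-- the kernel is contained in the core -/
lemma ker_subset_core (G : SimpleGraph V) : ker G ⊆ core G := by
  classical
  intro v hv S hS
  obtain ⟨X, hX, hmax⟩ := exists_critical G
  have hsub : ∀ Y : Finset V, Y ⊆ X → G.IsIndepSet Y := fun Y hY a ha b hb hab =>
    hX (hY ha) (hY hb) hab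
  have hcr : IsCritical G (X ∩ S) := by
    refine ⟨hsub _ Finset.inter_subset_left, fun Y hY => (hmax Y hY).trans ?_⟩
    -- exchange argument
    let Z := X \ S
    let B : Finset V := S.filter (fun w => w ∈ nbhd G Z)
    have hB : Z.card ≤ B.card := by
      have h1 : G.IsIndepSet ((S \ B) ∪ Z : Finset V) := by
        intro a ha b hb hab hadj
        rw [Finset.mem_coe, Finset.mem_union] at ha hb
        rcases ha with ha | ha <;> rcases hb with hb | hb
        · exact hS.isIndepSet (Finset.mem_sdiff.1 ha).1 (Finset.mem_sdiff.1 hb).1 hab hadj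
        · exact (Finset.mem_sdiff.1 ha).2 (Finset.mem_filter.2
            ⟨(Finset.mem_sdiff.1 ha).1, b, hb, hadj.symm⟩)
        · exact (Finset.mem_sdiff.1 hb).2 (Finset.mem_filter.2
            ⟨(Finset.mem_sdiff.1 hb).1, a, ha, hadj⟩)
        · exact hX (Finset.mem_sdiff.1 ha).1 (Finset.mem_sdiff.1 hb).1 hab hadj
      have h2 := card_le h1
      rw [← hS.card_eq, Finset.card_union_of_disjoint] at h2
      · have h3 : (S \ B).card + B.card = S.card :=
          Finset.card_sdiff_add_card_eq_card (Finset.filter_subset _ _)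
        omega
      · rw [Finset.disjoint_left]
        intro a ha ha'
        exact (Finset.mem_sdiff.1 ha').2 (Finset.mem_sdiff.1 ha).1
    have hN : (nbhd G (X ∩ S)).ncard + B.card ≤ (nbhd G X).ncard := by
      have hd : Disjoint (nbhd G (X ∩ S)) (B : Set V) := by
        rw [Set.disjoint_left]
        rintro w ⟨x, hx, hxw⟩ hw
        exact hS.isIndepSet (Finset.mem_inter.1 hx).2 (Finset.mem_filter.1 hw).1 hxw.ne hxw
      rw [← Set.ncard_coe_finset B, ← Set.ncard_union_eq hd (Set.toFinite _) (Set.toFinite _)]
      apply Set.ncard_le_ncard _ (Set.toFinite _)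
      rintro w (⟨x, hx, hxw⟩ | hw)
      · exact ⟨x, (Finset.mem_inter.1 hx).1, hxw⟩
      · obtain ⟨x, hx, hxw⟩ := (Finset.mem_filter.1 hw).2
        exact ⟨x, (Finset.mem_sdiff.1 hx).1, hxw⟩
    have hX2 : X.card = (X ∩ S).card + Z.card := (Finset.card_inter_add_card_sdiff X S).symm
    unfold diff
    omega
  exact (Finset.mem_inter.1 (hv _ hcr)).2

/-- For every finite simple graph `G`, `|corona(G)| + |ker(G)| ≤ 2 α(G) + k`, where `k` is the
number of odd cycles of `G`. -/
theorem result (V : Type) [Fintype V] (G : SimpleGraph V) :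
    (corona G).ncard + (ker G).ncard ≤ 2 * G.indepNum + (oddCycles G).ncard := by
  obtain ⟨T, hTc, hT⟩ := exists_transversal G
  have h1 := corona_add_core_le G T hT
  have h2 := Set.ncard_le_ncard (ker_subset_core G) (Set.toFinite _)
  omega

end Pool.Agent.Results.MP_7e5e3f_co.CoronaKer
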