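import Mathlib

/-!
# Both variants of the corona-ker inequality fail for the complete graphs `K_n`, `n ≥ 4` even
-/

set_option autoImplicit false

namespace Pool.Agent.Results.MP_7e5e3f_co.Q2Fails

open SimpleGraph

/-- `S` is a maximum independent set of `G`. -/
def IsMaxIndep {V : Type} (G : SimpleGraph V) (S : Finset V) : Prop :=
  G.IsNIndepSet G.indepNum S

/-- The union of the maximum independent sets. -/
def corona {V : Type} (G : SimpleGraph V) : Set V := {v | ∃ S, IsMaxIndep G S ∧ v ∈ S}

/-- `N(X)`: the vertices adjacent to at least one vertex of `X`. -/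
def nbhd {V : Type} (G : SimpleGraph V) (X : Finset V) : Set V := {v | ∃ x ∈ X, G.Adj x v}

/-- `d_G(X) = |X| - |N(X)|`. -/
noncomputable def diff {V : Type} (G : SimpleGraph V) (X : Finset V) : ℤ :=
  X.card - (nbhd G X).ncard

/-- `X` is a critical independent set: it is independent and maximises `d_G` among the
independent sets. -/
def IsCritical {V : Type} (G : SimpleGraph V) (X : Finset V) : Prop :=
  G.IsIndepSet X ∧ ∀ Y : Finset V, G.IsIndepSet Y → diff G Y ≤ diff G X

/-- The intersection of the critical independent sets. -/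
def ker {V : Type} (G : SimpleGraph V) : Set V := {v | ∀ X, IsCritical G X → v ∈ X}

/-- The odd cycles of `G`, identified with their edge sets. -/
def oddCycles {V : Type} (G : SimpleGraph V) : Set (Set (Sym2 V)) :=
  {E | ∃ (v : V) (c : G.Walk v v), c.IsCycle ∧ Odd c.length ∧ E = {e | e ∈ c.edges}}

/-- `M` is a maximum matching of `G`. -/
def IsMaxMatching {V : Type} (G : SimpleGraph V) (M : G.Subgraph) : Prop :=
  M.IsMatching ∧ ∀ M' : G.Subgraph, M'.IsMatching → M'.edgeSet.ncard ≤ M.edgeSet.ncard

/-- `D(G)`: the vertices left uncovered by some maximum matching. -/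
def gallaiD {V : Type} (G : SimpleGraph V) : Set V :=
  {v | ∃ M : G.Subgraph, IsMaxMatching G M ∧ v ∉ M.verts}

/-- `G` has `k` pairwise vertex-disjoint odd cycles. -/
def HasDisjointOddCycles {V : Type} (G : SimpleGraph V) (k : ℕ) : Prop :=
  ∃ (s : Fin k → V) (c : ∀ i, G.Walk (s i) (s i)), (∀ i, (c i).IsCycle ∧ Odd (c i).length) ∧
    ∀ i j, i ≠ j → ∀ v, ¬(v ∈ (c i).support ∧ v ∈ (c j).support)

/-- The maximum number of pairwise vertex-disjoint odd cycles of `G`. -/
noncomputable def oddCyclePacking {V : Type} (G : SimpleGraph V) : ℕ :=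
  sSup {k | HasDisjointOddCycles G k}

lemma indep_card {n : ℕ} (S : Finset (Fin n)) (h : (⊤ : SimpleGraph (Fin n)).IsIndepSet S) :
    S.card ≤ 1 := by
  rw [Finset.card_le_one]
  intro a ha b hb
  by_contra hab
  exact h ha hb hab hab

lemma indepNum_top {n : ℕ} (hn : 0 < n) : (⊤ : SimpleGraph (Fin n)).indepNum = 1 := by
  apply le_antisymm
  · obtain ⟨S, hS⟩ := (⊤ : SimpleGraph (Fin n)).exists_isNIndepSet_indepNum
    rw [← hS.card_eq]
    exact indep_card S hS.isIndepSet
  · have h : (⊤ : SimpleGraph (Fin n)).IsIndepSet ({(⟨0, hn⟩ : Fin n)} : Finset (Fin n)) := by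
      simp
    simpa using h.card_le_indepNum

lemma corona_top {n : ℕ} (hn : 0 < n) : (corona (⊤ : SimpleGraph (Fin n))).ncard = n := by
  have h : corona (⊤ : SimpleGraph (Fin n)) = Set.univ := by
    ext v
    simp only [Set.mem_univ, iff_true]
    refine ⟨{v}, ?_, Finset.mem_singleton_self v⟩
    unfold IsMaxIndep
    rw [indepNum_top hn]
    exact ⟨by simp, by simp⟩
  rw [h, Set.ncard_univ]
  simp

lemma diff_empty {n : ℕ} : diff (⊤ : SimpleGraph (Fin n)) ∅ = 0 := by
  simp [diff, nbhd]

lemma ker_top {n : ℕ} (hn : 3 ≤ n) : (ker (⊤ : SimpleGraph (Fin n))).ncard = 0 := by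
  have h : ker (⊤ : SimpleGraph (Fin n)) = ∅ := by
    ext v
    simp only [Set.mem_empty_iff_false, iff_false]
    intro hv
    have : IsCritical (⊤ : SimpleGraph (Fin n)) ∅ := by
      refine ⟨by simp, fun Y hY => ?_⟩
      rw [diff_empty]
      have h1 := indep_card Y hY
      rcases Nat.lt_or_ge Y.card 1 with h2 | h2
      · have : Y = ∅ := by
          rw [← Finset.card_eq_zero]; omega
        rw [this, diff_empty]
      · obtain ⟨y, rfl⟩ := Finset.card_eq_one.1 (le_antisymm h1 h2)
        have h3 : nbhd (⊤ : SimpleGraph (Fin n)) {y} = (({y} : Finset (Fin n))ᶜ : Finset (Fin n)) := by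
          ext z
          simp [nbhd, eq_comm]
        unfold diff
        rw [h3, Set.ncard_coe_finset, Finset.card_compl]
        simp
        omega
    simpa using hv _ this
  rw [h]
  simp

lemma gallaiD_top {n : ℕ} (hn : Even n) : gallaiD (⊤ : SimpleGraph (Fin n)) = ∅ := by
  classical
  ext v
  simp only [Set.mem_empty_iff_false, iff_false]
  rintro ⟨M, ⟨hM, hmax⟩, hv⟩
  -- a second uncovered vertex
  have hev : Even M.verts.toFinset.card := hM.even_card
  have hw : ∃ w, w ≠ v ∧ w ∉ M.verts := by
    by_contra hcon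
    push Not at hcon
    have h1 : M.verts.toFinset = Finset.univ.erase v := by
      ext w
      simp only [Set.mem_toFinset, Finset.mem_erase, Finset.mem_univ, and_true]
      exact ⟨fun h2 h3 => hv (h3 ▸ h2), fun h2 => hcon w h2⟩
    rw [h1, Finset.card_erase_of_mem (Finset.mem_univ _), Finset.card_univ, Fintype.card_fin]
      at hev
    have h4 : 0 < n := v.pos
    obtain ⟨a, ha⟩ := hn
    obtain ⟨b, hb⟩ := hev
    omega
  obtain ⟨w, hwv, hw⟩ := hw
  have hadj : (⊤ : SimpleGraph (Fin n)).Adj v w := hwv.symm
  have hE : (subgraphOfAdj _ hadj).IsMatching := Subgraph.IsMatching.subgraphOfAdj hadj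
  have hd : Disjoint M.support (subgraphOfAdj _ hadj).support := by
    rw [Set.disjoint_left]
    intro z hz hz'
    have h1 := M.support_subset_verts hz
    have h2 := (subgraphOfAdj _ hadj).support_subset_verts hz'
    simp only [subgraphOfAdj_verts, Set.mem_insert_iff, Set.mem_singleton_iff] at h2
    rcases h2 with h2 | h2
    · exact hv (h2 ▸ h1)
    · exact hw (h2 ▸ h1)
  have h3 := hmax _ (hM.sup hE hd)
  have h4 : s(v, w) ∉ M.edgeSet := by
    intro h5
    exact hv (M.edge_vert (Subgraph.mem_edgeSet.1 h5))
  rw [Subgraph.edgeSet_sup, edgeSet_subgraphOfAdj, Set.union_singleton,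
    Set.ncard_insert_of_notMem h4 (Set.toFinite _)] at h3
  omega

lemma support_card {V : Type} [DecidableEq V] {G : SimpleGraph V} {v : V} (c : G.Walk v v)
    (hc : c.IsCycle) : 3 ≤ c.support.toFinset.card := by
  have h1 := hc.support_nodup
  have h2 : c.support.tail.toFinset.card = c.support.tail.length :=
    List.toFinset_card_of_nodup h1
  have h3 : c.support.tail.toFinset ⊆ c.support.toFinset := by
    intro z hz
    rw [List.mem_toFinset] at hz ⊢
    exact List.mem_of_mem_tail hz
  have h4 := Finset.card_le_card h3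
  rw [h2, List.length_tail, Walk.length_support] at h4
  have := hc.three_le_length
  omega

lemma packing_le {n : ℕ} (G : SimpleGraph (Fin n)) : 3 * oddCyclePacking G ≤ n := by
  classical
  have h : oddCyclePacking G ≤ n / 3 := by
    apply csSup_le
    · exact ⟨0, fun i => i.elim0, fun i => i.elim0, fun i => i.elim0, fun i => i.elim0⟩
    · rintro k ⟨s, c, hc, hd⟩
      have h1 : (Finset.univ.biUnion fun i : Fin k => (c i).support.toFinset).card =
          ∑ i : Fin k, (c i).support.toFinset.card := by
        apply Finset.card_biUnion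
        intro i _ j _ hij
        change Disjoint (c i).support.toFinset (c j).support.toFinset
        rw [Finset.disjoint_left]
        intro v hv hv'
        exact hd i j hij v ⟨List.mem_toFinset.1 hv, List.mem_toFinset.1 hv'⟩
      have h2 : ∑ i : Fin k, 3 ≤ ∑ i : Fin k, (c i).support.toFinset.card :=
        Finset.sum_le_sum fun i _ => support_card (c i) (hc i).1
      have h3 := Finset.card_le_univ (Finset.univ.biUnion fun i : Fin k => (c i).support.toFinset)
      rw [Fintype.card_fin] at h3
      simp only [Finset.sum_const, Finset.card_univ, Fintype.card_fin, smul_eq_mul] at h2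
      omega
  omega

/-- Let `n ≥ 4` be even and let `G` be the complete graph on `n` vertices. Then
`|corona(G)| + |ker(G)| > 2 α(G) + k` both for `k` the number of odd cycles of `G[D(G)]` and for
`k` the maximum number of pairwise vertex-disjoint odd cycles of `G`. -/
theorem result (n : ℕ) (hn : 4 ≤ n) (hev : Even n) :
    2 * (completeGraph (Fin n)).indepNum +
        (oddCycles ((completeGraph (Fin n)).induce (gallaiD (completeGraph (Fin n))))).ncard <
      (corona (completeGraph (Fin n))).ncard + (ker (completeGraph (Fin n))).ncard ∧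
    2 * (completeGraph (Fin n)).indepNum + oddCyclePacking (completeGraph (Fin n)) <
      (corona (completeGraph (Fin n))).ncard + (ker (completeGraph (Fin n))).ncard := by
  change 2 * (⊤ : SimpleGraph (Fin n)).indepNum +
        (oddCycles ((⊤ : SimpleGraph (Fin n)).induce (gallaiD (⊤ : SimpleGraph (Fin n))))).ncard <
      (corona (⊤ : SimpleGraph (Fin n))).ncard + (ker (⊤ : SimpleGraph (Fin n))).ncard ∧
    2 * (⊤ : SimpleGraph (Fin n)).indepNum + oddCyclePacking (⊤ : SimpleGraph (Fin n)) <
      (corona (⊤ : SimpleGraph (Fin n))).ncard + (ker (⊤ : SimpleGraph (Fin n))).ncard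
  rw [indepNum_top (by omega), corona_top (by omega), ker_top (by omega)]
  have h1 : oddCycles ((⊤ : SimpleGraph (Fin n)).induce (gallaiD (⊤ : SimpleGraph (Fin n)))) =
      ∅ := by
    ext E
    simp only [Set.mem_empty_iff_false, iff_false]
    rintro ⟨v, _⟩
    exact (gallaiD_top hev).subset v.2
  rw [h1, Set.ncard_empty]
  have h3 := packing_le (⊤ : SimpleGraph (Fin n))
  omega

end Pool.Agent.Results.MP_7e5e3f_co.Q2Fails
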